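import Mathlib
import Pool.Agent.Helper35.ARPerB

/-! Asymptotics of the Abelian repetitive threshold and of its dual. -/

namespace Pool.Agent.Results.MP_bbea99_co.AbelianConst

/-- `w` encounters `y^r` in the Abelian sense: some factor of `w` is `u v u'` with `u'` a
rearrangement of `u` and `|uvu| / |uv| = r`. -/
def Encounters {n : ℕ} (w : List (Fin n)) (r : ℝ) : Prop :=
  ∃ u v u' : List (Fin n), (u ++ v ++ u') <:+: w ∧ u.Perm u' ∧
    ((u ++ v ++ u).length : ℝ) / ((u ++ v).length : ℝ) = r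

/-- `A(s, n)`: infinitely many words over `n` letters encounter no `y^r` with `r ≥ s`,
`1 < r ≤ 2`, in the Abelian sense. -/
def Avoidable (s : ℝ) (n : ℕ) : Prop :=
  {w : List (Fin n) | ∀ r : ℝ, 1 < r → r ≤ 2 → s ≤ r → ¬ Encounters w r}.Infinite

/-- Abelian repetitive threshold -/
noncomputable def ART (n : ℕ) : ℝ := sInf {s : ℝ | Avoidable s n}

/-- dual Abelian repetitive threshold -/
noncomputable def DART (r : ℝ) : ℕ := sInf {n : ℕ | Avoidable r n}

open Pool.Agent.Helper35.AR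

theorem lower (s : ℝ) (n : ℕ) (hn : 1 ≤ n) (h : Avoidable s n) : 1 + 1 / (n : ℝ) < s := by
  by_contra hcon
  push Not at hcon
  apply h
  apply (List.finite_length_le (Fin n) n).subset
  intro w hw
  simp only [Set.mem_ofPred_eq] at hw ⊢
  by_contra hlen
  push Not at hlen
  obtain ⟨x, y, hxy, he⟩ := Fintype.exists_ne_map_eq_of_card_lt
    (fun i : Fin (n + 1) => w[i.val]'(by have := i.isLt; omega)) (by simp)
  obtain ⟨i, j, hij, hjn, hE⟩ : ∃ i j : ℕ, ∃ hij : i < j, ∃ hjn : j ≤ n,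
      w[i]'(by omega) = w[j]'(by omega) := by
    have hx := x.isLt
    have hy := y.isLt
    rcases lt_or_gt_of_ne (fun h => hxy (Fin.ext h)) with hlt | hgt
    · exact ⟨x.val, y.val, hlt, by omega, he⟩
    · exact ⟨y.val, x.val, hgt, by omega, he.symm⟩
  have hjl : j < w.length := by omega
  have hd1 : (1 : ℝ) ≤ ((j - i : ℕ) : ℝ) := by
    have : 1 ≤ j - i := by omega
    exact_mod_cast this
  have hdn : ((j - i : ℕ) : ℝ) ≤ n := by
    have : j - i ≤ n := by omega
    exact_mod_cast this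
  have hn0 : (0 : ℝ) < n := by
    have : 0 < n := by omega
    exact_mod_cast this
  refine hw (1 + 1 / ((j - i : ℕ) : ℝ)) ?_ ?_ ?_ ?_
  · have : 0 < 1 / ((j - i : ℕ) : ℝ) := by positivity
    linarith
  · have : 1 / ((j - i : ℕ) : ℝ) ≤ 1 := by rw [div_le_one (by positivity)]; exact hd1
    linarith
  · have : 1 / (n : ℝ) ≤ 1 / ((j - i : ℕ) : ℝ) := one_div_le_one_div_of_le (by positivity) hdn
    linarith
  · refine ⟨[w[i]], (w.drop (i + 1)).take (j - i - 1), [w[j]], ?_, ?_, ?_⟩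
    · have e : [w[i]] ++ (w.drop (i + 1)).take (j - i - 1) ++ [w[j]] = (w.drop i).take (j - i + 1) := by
        have e1 : w.drop i = w[i] :: w.drop (i + 1) := List.drop_eq_getElem_cons (by omega)
        have e2 : w.drop j = w[j] :: w.drop (j + 1) := List.drop_eq_getElem_cons hjl
        have e3 : (w.drop (i + 1)).take (j - i) = (w.drop (i + 1)).take (j - i - 1) ++ [w[j]] := by
          conv_lhs => rw [show j - i = (j - i - 1) + 1 by omega, List.take_add, List.drop_drop,
            show i + 1 + (j - i - 1) = j by omega, e2]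
          rfl
        rw [e1, List.take_succ_cons, e3]
        rfl
      rw [e]
      exact (List.take_prefix _ _).isInfix.trans (List.drop_suffix _ _).isInfix
    · rw [hE]
    · have hl : ((w.drop (i + 1)).take (j - i - 1)).length = j - i - 1 := by
        rw [List.length_take, List.length_drop]; omega
      simp only [List.length_append, List.length_singleton, hl]
      rw [show 1 + (j - i - 1) = j - i by omega]
      push_cast
      field_simp

theorem zero_not (s : ℝ) : ¬ Avoidable s 0 := by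
  intro h
  apply h
  exact Set.toFinite _

theorem trivial_avoid (s : ℝ) (hs : 2 < s) (n : ℕ) (hn : 1 ≤ n) : Avoidable s n := by
  unfold Avoidable
  have : {w : List (Fin n) | ∀ r : ℝ, 1 < r → r ≤ 2 → s ≤ r → ¬ Encounters w r} = Set.univ := by
    apply Set.eq_univ_of_forall
    intro w r h1 h2 h3
    linarith
  rw [this]
  have : Nonempty (Fin n) := ⟨⟨0, by omega⟩⟩
  exact Set.infinite_univ

theorem upper (s : ℝ) (n Q : ℕ) (hQ : 2 ^ 33 * 20 ^ 5 * 18 ^ 36 ≤ Q) (hn : 19 * Q + 183 ≤ n)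
    (hs : 1 + 1 / (19 * (Q : ℝ) + 3) ≤ s) : Avoidable s n := by
  unfold Avoidable
  apply Set.Infinite.of_image List.length
  have huniv : List.length '' {w : List (Fin n) | ∀ r : ℝ, 1 < r → r ≤ 2 → s ≤ r → ¬ Encounters w r} = Set.univ := by
    apply Set.eq_univ_of_forall
    intro N
    obtain ⟨w, hw⟩ := exists_word_per Q hQ N
    have hcard : Fintype.card ((Fin 6 × Bool) ⊕ Fin (19 * Q + 171)) ≤ Fintype.card (Fin n) := by
      simp only [Fintype.card_sum, Fintype.card_prod, Fintype.card_fin, Fintype.card_bool]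
      omega
    obtain ⟨g⟩ := Function.Embedding.nonempty_of_card_le hcard
    refine ⟨(List.range' 0 N).map (fun x => g (w x)), ?_, by simp⟩
    intro r h1 h2 h3 hE
    obtain ⟨u, v, u', ⟨X, Z, hXZ⟩, hp, hr⟩ := hE
    have hlen := congrArg List.length hXZ
    simp only [List.length_append, List.length_map, List.length_range'] at hlen
    have hul := hp.length_eq
    have hu0 : u.length ≠ 0 := by
      intro h0
      have hu : u = [] := List.length_eq_zero_iff.mp h0
      rw [hu] at hr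
      simp only [List.nil_append, List.append_nil] at hr
      rcases eq_or_ne ((v.length : ℝ)) 0 with hv | hv
      · rw [hv] at hr; simp at hr; linarith
      · rw [div_self hv] at hr; linarith
    have hq1 : (0 : ℝ) < 19 * (Q : ℝ) + 3 := by positivity
    have hd : u.length + v.length ≤ u.length * (19 * Q + 3) := by
      have hpos : (0 : ℝ) < ((u ++ v).length : ℝ) := by
        have : 0 < (u ++ v).length := by rw [List.length_append]; omega
        exact_mod_cast this
      have e1 : ((u ++ v ++ u).length : ℝ) = ((u ++ v).length : ℝ) + u.length := by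
        rw [List.length_append (as := u ++ v)]; push_cast; ring
      rw [e1, add_div, div_self hpos.ne'] at hr
      have e2 : 1 / (19 * (Q : ℝ) + 3) ≤ (u.length : ℝ) / ((u ++ v).length : ℝ) := by linarith
      rw [div_le_div_iff₀ hq1 hpos, one_mul, List.length_append] at e2
      exact_mod_cast e2
    have hl2 : (List.range' 0 N) = List.range' 0 X.length ++ (List.range' X.length u.length ++
        (List.range' (X.length + u.length) v.length ++ (List.range' (X.length + (u.length + v.length)) u.length ++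
          List.range' (X.length + (u.length + v.length) + u.length) Z.length))) := by
      have e : N = X.length + (u.length + (v.length + (u.length + Z.length))) := by omega
      conv_lhs => rw [e]
      rw [← List.range'_append_1, ← List.range'_append_1, ← List.range'_append_1, ← List.range'_append_1]
      simp only [Nat.zero_add, Nat.add_assoc]
    rw [hl2] at hXZ
    simp only [List.map_append, List.append_assoc] at hXZ
    obtain ⟨_, h5⟩ := List.append_inj hXZ (by simp)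
    obtain ⟨h6, h7⟩ := List.append_inj h5 (by simp)
    obtain ⟨_, h9⟩ := List.append_inj h7 (by simp)
    obtain ⟨h10, _⟩ := List.append_inj h9 (by simp [hul])
    rw [h6, h10] at hp
    have hcomp : ∀ l : List ℕ, l.map (fun x => g (w x)) = (l.map w).map g := by
      intro l; rw [List.map_map]; rfl
    rw [hcomp, hcomp, List.map_perm_map_iff g.injective] at hp
    exact hw X.length u.length (u.length + v.length) (by omega) (by omega) hd (by omega) hp
  rw [huniv]
  exact Set.infinite_univ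

theorem ART_le (s : ℝ) (n : ℕ) (hn : 1 ≤ n) (h : Avoidable s n) : ART n ≤ s := by
  apply csInf_le _ h
  exact ⟨1 + 1 / (n : ℝ), fun x hx => (lower x n hn hx).le⟩

theorem ART_ge (n : ℕ) (hn : 1 ≤ n) : 1 + 1 / (n : ℝ) ≤ ART n := by
  apply le_csInf
  · exact ⟨3, trivial_avoid 3 (by norm_num) n hn⟩
  · intro b hb
    exact (lower b n hn hb).le

theorem ART_two (n : ℕ) (hn : 1 ≤ n) : ART n ≤ 2 := by
  apply le_of_forall_pos_le_add
  intro ε hε
  exact ART_le (2 + ε) n hn (trivial_avoid (2 + ε) (by linarith) n hn)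

/-- threshold -/
def Q0 : ℕ := 2 ^ 33 * 20 ^ 5 * 18 ^ 36

theorem ART_upper (n : ℕ) (hn : 19 * Q0 + 202 ≤ n) : ART n ≤ 1 + 1 / ((n : ℝ) - 198) := by
  obtain ⟨Q, hQ⟩ : ∃ Q, Q = (n - 183) / 19 := ⟨_, rfl⟩
  have h1 : Q0 ≤ Q := by omega
  have hav := upper (1 + 1 / (19 * (Q : ℝ) + 3)) n Q h1 (by omega) le_rfl
  refine (ART_le _ n (by omega) hav).trans ?_
  have h2 : (n : ℝ) ≤ 19 * Q + 201 := by
    have : n ≤ 19 * Q + 201 := by omega
    exact_mod_cast this
  have h3 : (202 : ℝ) ≤ n := by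
    have : 202 ≤ n := by omega
    exact_mod_cast this
  have h4 : 1 / (19 * (Q : ℝ) + 3) ≤ 1 / ((n : ℝ) - 198) :=
    one_div_le_one_div_of_le (by linarith) (by linarith)
  linarith

theorem ART_all : ∃ C : ℝ, ∀ n : ℕ, 2 ≤ n → ART n ≤ 1 + 1 / (n : ℝ) + C / (n : ℝ) ^ 2 := by
  refine ⟨((19 * Q0 + 202 : ℕ) : ℝ) ^ 2 + 10000, ?_⟩
  intro n hn
  have hn2 : (2 : ℝ) ≤ n := by exact_mod_cast hn
  rcases Nat.lt_or_ge n (19 * Q0 + 202) with h | h
  · have h1 : (n : ℝ) ≤ ((19 * Q0 + 202 : ℕ) : ℝ) := by exact_mod_cast h.le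
    have h2 : 1 ≤ (((19 * Q0 + 202 : ℕ) : ℝ) ^ 2 + 10000) / (n : ℝ) ^ 2 := by
      rw [le_div_iff₀ (by positivity), one_mul]
      nlinarith
    have h3 := ART_two n (by omega)
    have h4 : 0 ≤ 1 / (n : ℝ) := by positivity
    linarith
  · refine (ART_upper n h).trans ?_
    have hbig : (400 : ℝ) ≤ n := by
      have : 400 ≤ n := by
        have : 400 ≤ 19 * Q0 := by unfold Q0; norm_num
        omega
      exact_mod_cast this
    have e1 : 1 / ((n : ℝ) - 198) ≤ 1 / (n : ℝ) + 10000 / (n : ℝ) ^ 2 := by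
      rw [div_add_div _ _ (by positivity) (by positivity), div_le_div_iff₀ (by linarith) (by positivity)]
      nlinarith [mul_nonneg (show (0 : ℝ) ≤ (n : ℝ) - 400 by linarith) (show (0 : ℝ) ≤ (n : ℝ) by linarith),
        mul_nonneg (mul_nonneg (show (0 : ℝ) ≤ (n : ℝ) - 400 by linarith) (show (0 : ℝ) ≤ (n : ℝ) by linarith)) (show (0 : ℝ) ≤ (n : ℝ) by linarith)]
    have e2 : 10000 / (n : ℝ) ^ 2 ≤ (((19 * Q0 + 202 : ℕ) : ℝ) ^ 2 + 10000) / (n : ℝ) ^ 2 := by
      apply div_le_div_of_nonneg_right _ (by positivity)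
      have : (0 : ℝ) ≤ ((19 * Q0 + 202 : ℕ) : ℝ) ^ 2 := by positivity
      linarith
    linarith

theorem DART_lower (r : ℝ) (h1 : 1 < r) (hex : ∃ n, Avoidable r n) : 1 / (r - 1) < (DART r : ℝ) := by
  have hr0 : 0 < r - 1 := by linarith
  have hmem : Avoidable r (DART r) := Nat.sInf_mem (s := {n : ℕ | Avoidable r n}) hex
  have hD : 1 ≤ DART r := by
    rcases Nat.eq_zero_or_pos (DART r) with h | h
    · rw [h] at hmem; exact absurd hmem (zero_not r)
    · exact h
  have hlow := lower r _ hD hmem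
  have hD0 : (0 : ℝ) < DART r := by exact_mod_cast hD
  rw [div_lt_iff₀ hr0]
  have : 1 / (DART r : ℝ) < r - 1 := by linarith
  rw [div_lt_iff₀ hD0] at this
  linarith

/-- a single choice of `Q` -/
theorem DART_choice (r : ℝ) (h1 : 1 < r) (Q : ℕ) (hQ : Q0 ≤ Q) (hr : 1 / (r - 1) ≤ 19 * (Q : ℝ) + 3) :
    Avoidable r (19 * Q + 183) := by
  have hr0 : 0 < r - 1 := by linarith
  apply upper r _ Q hQ le_rfl
  have e : 1 / (19 * (Q : ℝ) + 3) ≤ r - 1 := by
    rw [div_le_iff₀ (by positivity)]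
    rw [div_le_iff₀ hr0] at hr
    linarith
  linarith

theorem DART_near (r : ℝ) (h1 : 1 < r) (h2 : 19 * (Q0 : ℝ) + 22 ≤ 1 / (r - 1)) :
    (DART r : ℝ) ≤ 1 / (r - 1) + 199 := by
  obtain ⟨x, hx⟩ : ∃ x, x = 1 / (r - 1) := ⟨_, rfl⟩
  rw [← hx] at h2 ⊢
  have hQ00 : (0 : ℝ) ≤ Q0 := Nat.cast_nonneg _
  obtain ⟨Q, hQ⟩ : ∃ Q, Q = ⌈(x - 3) / 19⌉₊ := ⟨_, rfl⟩
  have c1 := Nat.le_ceil ((x - 3) / 19)
  have c2 := Nat.ceil_lt_add_one (show 0 ≤ (x - 3) / 19 by apply div_nonneg <;> linarith)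
  rw [← hQ] at c1 c2
  rw [div_le_iff₀ (by norm_num)] at c1
  have c3 : (Q : ℝ) * 19 < x - 3 + 19 := by
    have := mul_lt_mul_of_pos_right c2 (show (0 : ℝ) < 19 by norm_num)
    rw [add_mul, div_mul_cancel₀ _ (by norm_num : (19 : ℝ) ≠ 0)] at this
    linarith
  have hQge : Q0 ≤ Q := by
    have : (Q0 : ℝ) ≤ Q := by linarith
    exact_mod_cast this
  have hav := DART_choice r h1 Q hQge (by rw [← hx]; linarith)
  have hle : DART r ≤ 19 * Q + 183 := Nat.sInf_le hav
  have : (DART r : ℝ) ≤ 19 * Q + 183 := by exact_mod_cast hle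
  linarith

theorem DART_all : ∃ C : ℝ, ∀ r : ℝ, 1 < r → r ≤ 2 →
    1 / (r - 1) < (DART r : ℝ) ∧ (DART r : ℝ) ≤ 1 / (r - 1) + C := by
  refine ⟨19 * (Q0 : ℝ) + 19 + 199 + 183, ?_⟩
  intro r h1 h2
  have hr0 : 0 < r - 1 := by linarith
  have hQ00 : (0 : ℝ) ≤ Q0 := Nat.cast_nonneg _
  have hx0 : 0 < 1 / (r - 1) := by positivity
  rcases lt_or_ge (1 / (r - 1)) (19 * (Q0 : ℝ) + 22) with h | h
  · have hav := DART_choice r h1 (Q0 + 1) (by omega) (by push_cast; linarith)
    refine ⟨DART_lower r h1 ⟨_, hav⟩, ?_⟩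
    have hle : DART r ≤ 19 * (Q0 + 1) + 183 := Nat.sInf_le hav
    have : (DART r : ℝ) ≤ 19 * (Q0 + 1) + 183 := by exact_mod_cast hle
    linarith
  · have hn := DART_near r h1 h
    refine ⟨?_, by linarith⟩
    obtain ⟨Q, hQ⟩ := exists_nat_ge (1 / (r - 1))
    apply DART_lower r h1
    refine ⟨_, DART_choice r h1 (Q0 + Q) (by omega) ?_⟩
    push_cast
    linarith

/-- Asymptotic determination of the Abelian repetitive threshold and of its dual,
the dual up to a bounded additive error. -/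
theorem result :
    (∃ C : ℝ, ∀ n : ℕ, 2 ≤ n →
      1 + 1 / (n : ℝ) ≤ ART n ∧ ART n ≤ 1 + 1 / (n : ℝ) + C / (n : ℝ) ^ 2) ∧
    (∃ C : ℝ, ∀ r : ℝ, 1 < r → r ≤ 2 →
      1 / (r - 1) < (DART r : ℝ) ∧ (DART r : ℝ) ≤ 1 / (r - 1) + C) ∧
    (∃ n₀ : ℕ, ∀ n : ℕ, n₀ ≤ n → ART n ≤ 1 + 1 / ((n : ℝ) - 198)) ∧
    (∃ r₀ : ℝ, 1 < r₀ ∧ ∀ r : ℝ, 1 < r → r ≤ r₀ → (DART r : ℝ) ≤ 1 / (r - 1) + 199) := by
  refine ⟨?_, DART_all, ⟨_, fun n hn => ART_upper n hn⟩, ?_⟩
  · obtain ⟨C, hC⟩ := ART_all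
    exact ⟨C, fun n hn => ⟨ART_ge n (by omega), hC n hn⟩⟩
  · have hQ00 : (0 : ℝ) ≤ Q0 := Nat.cast_nonneg _
    have hpos : (0 : ℝ) < 19 * (Q0 : ℝ) + 22 := by linarith
    refine ⟨1 + 1 / (19 * (Q0 : ℝ) + 22), by have : 0 < 1 / (19 * (Q0 : ℝ) + 22) := by positivity
                                             linarith, ?_⟩
    intro r h1 h2
    apply DART_near r h1
    rw [le_div_iff₀ (by linarith)]
    have h3 : r - 1 ≤ 1 / (19 * (Q0 : ℝ) + 22) := by linarith
    rw [le_div_iff₀ hpos] at h3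
    linarith

end Pool.Agent.Results.MP_bbea99_co.AbelianConst
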