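import Mathlib
import Pool.Agent.Helper35.ARWord

/-! Asymptotics of the Abelian repetitive threshold and of its dual. -/

namespace Pool.Agent.Results.MP_bbea99_co.AbelianLog

/-- `w` encounters `y^r` in the Abelian sense: some factor of `w` is `u v u'` with `u'` a
rearrangement of `u` and `|uvu| / |uv| = r`. -/
def Encounters {n : ℕ} (w : List (Fin n)) (r : ℝ) : Prop :=
  ∃ u v u' : List (Fin n), (u ++ v ++ u') <:+: w ∧ u.Perm u' ∧
    ((u ++ v ++ u).length : ℝ) / ((u ++ v).length : ℝ) = r

/-- `A(s, n)`: infinitely many words over `n` letters encounter no `y^r` with `r ≥ s`,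
`1 < r ≤ 2`, in the Abelian sense. -/
def Avoidable (s : ℝ) (n : ℕ) : Prop :=
  {w : List (Fin n) | ∀ r : ℝ, 1 < r → r ≤ 2 → s ≤ r → ¬ Encounters w r}.Infinite

/-- Abelian repetitive threshold -/
noncomputable def ART (n : ℕ) : ℝ := sInf {s : ℝ | Avoidable s n}

/-- dual Abelian repetitive threshold -/
noncomputable def DART (r : ℝ) : ℕ := sInf {n : ℕ | Avoidable r n}

open Pool.Agent.Helper35.AR

theorem lower (s : ℝ) (n : ℕ) (hn : 1 ≤ n) (h : Avoidable s n) : 1 + 1 / (n : ℝ) < s := by
  by_contra hcon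
  push Not at hcon
  apply h
  apply (List.finite_length_le (Fin n) n).subset
  intro w hw
  simp only [Set.mem_ofPred_eq] at hw ⊢
  by_contra hlen
  push Not at hlen
  obtain ⟨x, y, hxy, he⟩ := Fintype.exists_ne_map_eq_of_card_lt
    (fun i : Fin (n + 1) => w[i.val]'(by have := i.isLt; omega)) (by simp)
  obtain ⟨i, j, hij, hjn, hE⟩ : ∃ i j : ℕ, ∃ hij : i < j, ∃ hjn : j ≤ n,
      w[i]'(by omega) = w[j]'(by omega) := by
    have hx := x.isLt
    have hy := y.isLt
    rcases lt_or_gt_of_ne (fun h => hxy (Fin.ext h)) with hlt | hgt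
    · exact ⟨x.val, y.val, hlt, by omega, he⟩
    · exact ⟨y.val, x.val, hgt, by omega, he.symm⟩
  have hjl : j < w.length := by omega
  have hd1 : (1 : ℝ) ≤ ((j - i : ℕ) : ℝ) := by
    have : 1 ≤ j - i := by omega
    exact_mod_cast this
  have hdn : ((j - i : ℕ) : ℝ) ≤ n := by
    have : j - i ≤ n := by omega
    exact_mod_cast this
  have hn0 : (0 : ℝ) < n := by
    have : 0 < n := by omega
    exact_mod_cast this
  refine hw (1 + 1 / ((j - i : ℕ) : ℝ)) ?_ ?_ ?_ ?_
  · have : 0 < 1 / ((j - i : ℕ) : ℝ) := by positivity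
    linarith
  · have : 1 / ((j - i : ℕ) : ℝ) ≤ 1 := by rw [div_le_one (by positivity)]; exact hd1
    linarith
  · have : 1 / (n : ℝ) ≤ 1 / ((j - i : ℕ) : ℝ) := one_div_le_one_div_of_le (by positivity) hdn
    linarith
  · refine ⟨[w[i]], (w.drop (i + 1)).take (j - i - 1), [w[j]], ?_, ?_, ?_⟩
    · have e : [w[i]] ++ (w.drop (i + 1)).take (j - i - 1) ++ [w[j]] = (w.drop i).take (j - i + 1) := by
        have e1 : w.drop i = w[i] :: w.drop (i + 1) := List.drop_eq_getElem_cons (by omega)
        have e2 : w.drop j = w[j] :: w.drop (j + 1) := List.drop_eq_getElem_cons hjl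
        have e3 : (w.drop (i + 1)).take (j - i) = (w.drop (i + 1)).take (j - i - 1) ++ [w[j]] := by
          conv_lhs => rw [show j - i = (j - i - 1) + 1 by omega, List.take_add, List.drop_drop,
            show i + 1 + (j - i - 1) = j by omega, e2]
          rfl
        rw [e1, List.take_succ_cons, e3]
        rfl
      rw [e]
      exact (List.take_prefix _ _).isInfix.trans (List.drop_suffix _ _).isInfix
    · rw [hE]
    · have hl : ((w.drop (i + 1)).take (j - i - 1)).length = j - i - 1 := by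
        rw [List.length_take, List.length_drop]; omega
      simp only [List.length_append, List.length_singleton, hl]
      rw [show 1 + (j - i - 1) = j - i by omega]
      push_cast
      field_simp

theorem zero_not (s : ℝ) : ¬ Avoidable s 0 := by
  intro h
  apply h
  exact Set.toFinite _

theorem trivial_avoid (s : ℝ) (hs : 2 < s) (n : ℕ) (hn : 1 ≤ n) : Avoidable s n := by
  unfold Avoidable
  have : {w : List (Fin n) | ∀ r : ℝ, 1 < r → r ≤ 2 → s ≤ r → ¬ Encounters w r} = Set.univ := by
    apply Set.eq_univ_of_forall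
    intro w r h1 h2 h3
    linarith
  rw [this]
  have : Nonempty (Fin n) := ⟨⟨0, by omega⟩⟩
  exact Set.infinite_univ

theorem upper (s : ℝ) (n q t : ℕ) (hq : 19 ≤ q) (ht : q ≤ 2 ^ t) (hn : q + 403 + 48 * t ≤ n)
    (hs : 1 + 1 / ((q - 1 : ℕ) : ℝ) ≤ s) : Avoidable s n := by
  unfold Avoidable
  apply Set.Infinite.of_image List.length
  have huniv : List.length '' {w : List (Fin n) | ∀ r : ℝ, 1 < r → r ≤ 2 → s ≤ r → ¬ Encounters w r} = Set.univ := by
    apply Set.eq_univ_of_forall
    intro N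
    obtain ⟨w, hw⟩ := exists_word q t hq ht N
    have hcard : Fintype.card ((Fin 6 × Bool) ⊕ Fin (q - 5 + 2 * (198 + 24 * t))) ≤ Fintype.card (Fin n) := by
      simp only [Fintype.card_sum, Fintype.card_prod, Fintype.card_fin, Fintype.card_bool]
      omega
    obtain ⟨g⟩ := Function.Embedding.nonempty_of_card_le hcard
    refine ⟨(List.range' 0 N).map (fun x => g (w x)), ?_, by simp⟩
    intro r h1 h2 h3 hE
    obtain ⟨u, v, u', ⟨X, Z, hXZ⟩, hp, hr⟩ := hE
    have hlen := congrArg List.length hXZ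
    simp only [List.length_append, List.length_map, List.length_range'] at hlen
    have hul := hp.length_eq
    have hu0 : u.length ≠ 0 := by
      intro h0
      have hu : u = [] := List.length_eq_zero_iff.mp h0
      rw [hu] at hr
      simp only [List.nil_append, List.append_nil] at hr
      rcases eq_or_ne ((v.length : ℝ)) 0 with hv | hv
      · rw [hv] at hr; simp at hr; linarith
      · rw [div_self hv] at hr; linarith
    have hq1 : (0 : ℝ) < ((q - 1 : ℕ) : ℝ) := by
      have : 0 < q - 1 := by omega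
      exact_mod_cast this
    have hd : u.length + v.length ≤ u.length * (q - 1) := by
      have hpos : (0 : ℝ) < ((u ++ v).length : ℝ) := by
        have : 0 < (u ++ v).length := by rw [List.length_append]; omega
        exact_mod_cast this
      have e1 : ((u ++ v ++ u).length : ℝ) = ((u ++ v).length : ℝ) + u.length := by
        rw [List.length_append (as := u ++ v)]; push_cast; ring
      rw [e1, add_div, div_self hpos.ne'] at hr
      have e2 : 1 / ((q - 1 : ℕ) : ℝ) ≤ (u.length : ℝ) / ((u ++ v).length : ℝ) := by linarith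
      rw [div_le_div_iff₀ hq1 hpos, one_mul, List.length_append] at e2
      exact_mod_cast e2
    have hl2 : (List.range' 0 N) = List.range' 0 X.length ++ (List.range' X.length u.length ++
        (List.range' (X.length + u.length) v.length ++ (List.range' (X.length + (u.length + v.length)) u.length ++
          List.range' (X.length + (u.length + v.length) + u.length) Z.length))) := by
      have e : N = X.length + (u.length + (v.length + (u.length + Z.length))) := by omega
      conv_lhs => rw [e]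
      rw [← List.range'_append_1, ← List.range'_append_1, ← List.range'_append_1, ← List.range'_append_1]
      simp only [Nat.zero_add, Nat.add_assoc]
    rw [hl2] at hXZ
    simp only [List.map_append, List.append_assoc] at hXZ
    obtain ⟨_, h5⟩ := List.append_inj hXZ (by simp)
    obtain ⟨h6, h7⟩ := List.append_inj h5 (by simp)
    obtain ⟨_, h9⟩ := List.append_inj h7 (by simp)
    obtain ⟨h10, _⟩ := List.append_inj h9 (by simp [hul])
    rw [h6, h10] at hp
    have hcomp : ∀ l : List ℕ, l.map (fun x => g (w x)) = (l.map w).map g := by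
      intro l; rw [List.map_map]; rfl
    rw [hcomp, hcomp, List.map_perm_map_iff g.injective] at hp
    exact hw X.length u.length (u.length + v.length) (by omega) (by omega) hd (by omega) hp
  rw [huniv]
  exact Set.infinite_univ

theorem ART_le (s : ℝ) (n : ℕ) (hn : 1 ≤ n) (h : Avoidable s n) : ART n ≤ s := by
  apply csInf_le _ h
  exact ⟨1 + 1 / (n : ℝ), fun x hx => (lower x n hn hx).le⟩

theorem ART_ge (n : ℕ) (hn : 1 ≤ n) : 1 + 1 / (n : ℝ) ≤ ART n := by
  apply le_csInf
  · exact ⟨3, trivial_avoid 3 (by norm_num) n hn⟩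
  · intro b hb
    exact (lower b n hn hb).le

theorem clog_facts (n : ℕ) (hn : 2 ≤ n) : n ≤ 2 ^ Nat.clog 2 n ∧ 1 ≤ Nat.clog 2 n ∧ 2 ^ (Nat.clog 2 n - 1) < n := by
  have h1 := Nat.le_pow_clog (show 1 < 2 by norm_num) n
  have h2 := Nat.pow_pred_clog_lt_self (show 1 < 2 by norm_num) (show 1 < n by omega)
  refine ⟨h1, ?_, h2⟩
  rcases Nat.eq_zero_or_pos (Nat.clog 2 n) with h | h
  · rw [h] at h1; omega
  · exact h

theorem ART_upper (n : ℕ) (hn : 4096 < n) :
    ART n ≤ 1 + 1 / (n : ℝ) + 320 * Real.log n / (n : ℝ) ^ 2 := by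
  obtain ⟨h1, h2, h3⟩ := clog_facts n (by omega)
  obtain ⟨t, ht⟩ : ∃ t, t = Nat.clog 2 n := ⟨_, rfl⟩
  rw [← ht] at h1 h2 h3
  have ht13 : 13 ≤ t := by
    by_contra hcon
    push Not at hcon
    have : 2 ^ t ≤ 2 ^ 12 := Nat.pow_le_pow_right (by norm_num) (by omega)
    norm_num at this
    omega
  have hpow : 2 * (404 + 48 * t) ≤ 2 ^ (t - 1) := by
    obtain ⟨k, rfl⟩ : ∃ k, t = k + 13 := ⟨t - 13, by omega⟩
    rw [show k + 13 - 1 = k + 12 by omega]
    clear ht h1 h2 h3 ht13
    induction k with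
    | zero => norm_num
    | succ k ih =>
      rw [show k + 1 + 12 = (k + 12) + 1 by ring, pow_succ]
      have h96 : 96 ≤ 2 ^ (k + 12) := by
        calc 96 ≤ 2 ^ 12 := by norm_num
          _ ≤ 2 ^ (k + 12) := Nat.pow_le_pow_right (by norm_num) (by omega)
      rw [show 2 * (404 + 48 * (k + 1 + 13)) = 2 * (404 + 48 * (k + 13)) + 96 by ring]
      linarith
  obtain ⟨q, hq⟩ : ∃ q, q = n - 403 - 48 * t := ⟨_, rfl⟩
  have hav := upper (1 + 1 / ((q - 1 : ℕ) : ℝ)) n q t (by omega) (by omega) (by omega) le_rfl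
  refine (ART_le _ n (by omega) hav).trans ?_
  have hn0 : (0 : ℝ) < n := by
    have : 0 < n := by omega
    exact_mod_cast this
  have hq1 : ((q - 1 : ℕ) : ℝ) = (n : ℝ) - (404 + 48 * t) := by
    have : ((q - 1 : ℕ) : ℝ) + (404 + 48 * t) = n := by
      have : (q - 1) + (404 + 48 * t) = n := by omega
      exact_mod_cast this
    linarith
  have hhalf : (n : ℝ) / 2 ≤ ((q - 1 : ℕ) : ℝ) := by
    have : n ≤ 2 * (q - 1) := by omega
    have : (n : ℝ) ≤ 2 * ((q - 1 : ℕ) : ℝ) := by exact_mod_cast this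
    linarith
  have hlog : (t : ℝ) ≤ 2 * Real.log n := by
    have e1 : ((t - 1 : ℕ) : ℝ) * Real.log 2 ≤ Real.log n := by
      rw [← Real.log_pow]
      apply Real.log_le_log (by positivity)
      exact_mod_cast h3.le
    have e2 : ((t - 1 : ℕ) : ℝ) = (t : ℝ) - 1 := by rw [Nat.cast_sub h2]; norm_num
    have e3 := Real.log_two_gt_d9
    have e4 : (13 : ℝ) ≤ t := by exact_mod_cast ht13
    rw [e2] at e1
    nlinarith
  have ht0 : (404 : ℝ) + 48 * t ≤ 80 * t := by
    have e4 : (13 : ℝ) ≤ t := by exact_mod_cast ht13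
    linarith
  have hkey : 1 / ((q - 1 : ℕ) : ℝ) ≤ 1 / (n : ℝ) + 320 * Real.log n / (n : ℝ) ^ 2 := by
    have hqpos : (0 : ℝ) < ((q - 1 : ℕ) : ℝ) := by linarith
    have e1 : 1 / ((q - 1 : ℕ) : ℝ) - 1 / (n : ℝ) = (404 + 48 * t) / (((q - 1 : ℕ) : ℝ) * n) := by
      field_simp
      rw [hq1]; ring
    have e2 : (404 + 48 * (t : ℝ)) / (((q - 1 : ℕ) : ℝ) * n) ≤ (160 * Real.log n) / ((n : ℝ) / 2 * n) := by
      apply div_le_div₀
      · have := Real.log_natCast_nonneg n; positivity
      · linarith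
      · positivity
      · exact mul_le_mul_of_nonneg_right hhalf hn0.le
    have e3 : (160 * Real.log n) / ((n : ℝ) / 2 * n) = 320 * Real.log n / (n : ℝ) ^ 2 := by
      rw [div_eq_div_iff (by positivity) (by positivity)]; ring
    linarith
  linarith

theorem DART_facts (r : ℝ) (h1 : 1 < r) (h2 : r ≤ 2) :
    1 / (r - 1) < (DART r : ℝ) ∧ (DART r : ℝ) ≤ 1 / (r - 1) + 96 * Real.log (1 / (r - 1)) + 711 := by
  obtain ⟨x, hx⟩ : ∃ x, x = 1 / (r - 1) := ⟨_, rfl⟩
  have hr0 : 0 < r - 1 := by linarith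
  have hx1 : 1 ≤ x := by rw [hx, le_div_iff₀ hr0]; linarith
  obtain ⟨q, hq⟩ : ∃ q, q = max 19 (⌈x⌉₊ + 1) := ⟨_, rfl⟩
  have hq19 : 19 ≤ q := by omega
  have hceil := Nat.le_ceil x
  have hceil2 := Nat.ceil_lt_add_one (show 0 ≤ x by linarith)
  obtain ⟨c1, c2, c3⟩ := clog_facts q (by omega)
  obtain ⟨t, ht⟩ : ∃ t, t = Nat.clog 2 q := ⟨_, rfl⟩
  rw [← ht] at c1 c2 c3
  have hqx : x ≤ ((q - 1 : ℕ) : ℝ) := by
    refine hceil.trans ?_
    have : ⌈x⌉₊ ≤ q - 1 := by omega
    exact_mod_cast this
  have hav : Avoidable r (q + 403 + 48 * t) := by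
    apply upper r _ q t hq19 c1 le_rfl
    have : 1 / ((q - 1 : ℕ) : ℝ) ≤ 1 / x := one_div_le_one_div_of_le (by linarith) hqx
    have e : 1 / x = r - 1 := by rw [hx, one_div_one_div]
    linarith
  have hmem : Avoidable r (DART r) := Nat.sInf_mem (s := {n : ℕ | Avoidable r n}) ⟨_, hav⟩
  have hle : DART r ≤ q + 403 + 48 * t := Nat.sInf_le hav
  rw [← hx]
  constructor
  · have hD : 1 ≤ DART r := by
      rcases Nat.eq_zero_or_pos (DART r) with h | h
      · rw [h] at hmem; exact absurd hmem (zero_not r)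
      · exact h
    have hlow := lower r _ hD hmem
    have hD0 : (0 : ℝ) < DART r := by exact_mod_cast hD
    rw [hx, div_lt_iff₀ hr0]
    have : 1 / (DART r : ℝ) < r - 1 := by linarith
    rw [div_lt_iff₀ hD0] at this
    linarith
  · have hqx2 : (q : ℝ) ≤ x + 20 := by
      rw [hq]
      push_cast
      apply max_le
      · linarith
      · linarith
    have hlog : (t : ℝ) ≤ 6 + 2 * Real.log x := by
      have e1 : ((t - 1 : ℕ) : ℝ) * Real.log 2 ≤ Real.log q := by
        rw [← Real.log_pow]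
        apply Real.log_le_log (by positivity)
        exact_mod_cast c3.le
      have e2 : ((t - 1 : ℕ) : ℝ) = (t : ℝ) - 1 := by rw [Nat.cast_sub c2]; norm_num
      have e3 := Real.log_two_gt_d9
      have e5 : Real.log q ≤ Real.log ((2 : ℝ) ^ 5 * x) := by
        apply Real.log_le_log
        · have : 0 < q := by omega
          exact_mod_cast this
        · linarith
      rw [Real.log_mul (by norm_num) (by linarith), Real.log_pow] at e5
      push_cast at e5
      have e6 : 0 ≤ Real.log x := Real.log_nonneg hx1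
      rw [e2] at e1
      nlinarith
    have : (DART r : ℝ) ≤ q + 403 + 48 * t := by exact_mod_cast hle
    linarith

/-- Asymptotic determination of the Abelian repetitive threshold and of its dual. -/
theorem result :
    (∀ n : ℕ, 2 ≤ n → 1 + 1 / (n : ℝ) ≤ ART n) ∧
    (∀ n : ℕ, 4096 < n → ART n ≤ 1 + 1 / (n : ℝ) + 320 * Real.log n / (n : ℝ) ^ 2) ∧
    (∀ r : ℝ, 1 < r → r ≤ 2 →
      1 / (r - 1) < (DART r : ℝ) ∧
      (DART r : ℝ) ≤ 1 / (r - 1) + 96 * Real.log (1 / (r - 1)) + 711) :=
  ⟨fun n hn => ART_ge n (by omega), fun n hn => ART_upper n hn, fun r h1 h2 => DART_facts r h1 h2⟩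

end Pool.Agent.Results.MP_bbea99_co.AbelianLog
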